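import Mathlib

set_option autoImplicit false

/-!
# Sections of subsets of `F_2^n`, product weights, and the one-scale transport inequality
-/

namespace Pool.Agent.H290R2.FS

open Finset
open scoped Pointwise

/-- The space `F_2^n`. -/
abbrev V (n : ℕ) : Type := Fin n → ZMod 2

/-- Section of `G` over the first coordinate. -/
def sec {n : ℕ} (a : ZMod 2) (G : Finset (V (n + 1))) : Finset (V n) :=
  univ.filter (fun y => (Fin.cons a y : V (n + 1)) ∈ G)

theorem mem_sec {n : ℕ} (a : ZMod 2) (G : Finset (V (n + 1))) (y : V n) :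
    y ∈ sec a G ↔ (Fin.cons a y : V (n + 1)) ∈ G := by
  simp [sec]

theorem sum_univ_cons {n : ℕ} (f : V (n + 1) → ℝ) :
    ∑ x, f x = ∑ y, f (Fin.cons 0 y) + ∑ y, f (Fin.cons 1 y) := by
  rw [← (Fin.consEquiv (fun _ : Fin (n + 1) => ZMod 2)).sum_comp f, Fintype.sum_prod_type]
  have : ∀ g : ZMod 2 → ℝ, ∑ a, g a = g 0 + g 1 := fun g => Fin.sum_univ_two g
  rw [this]
  rfl

theorem sum_sec {n : ℕ} (G : Finset (V (n + 1))) (f : V (n + 1) → ℝ) :
    ∑ x ∈ G, f x = ∑ y ∈ sec 0 G, f (Fin.cons 0 y) + ∑ y ∈ sec 1 G, f (Fin.cons 1 y) := by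
  have h := sum_univ_cons (fun x => if x ∈ G then f x else 0)
  simp only [sec, Finset.sum_filter]
  rw [← h, Finset.sum_ite_mem, Finset.univ_inter]

theorem card_sec {n : ℕ} (G : Finset (V (n + 1))) :
    (G.card : ℝ) = (sec 0 G).card + (sec 1 G).card := by
  have h := sum_sec G (fun _ => (1 : ℝ))
  simpa using h

/-- Product weight with flip rate `ρ`. -/
noncomputable def wt (ρ : ℝ) {n : ℕ} (z : V n) : ℝ := ∏ i, (if z i = 0 then 1 - ρ else ρ)

/-- Product measure with flip rate `ρ`. -/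
noncomputable def mu (ρ : ℝ) {n : ℕ} (G : Finset (V n)) : ℝ := ∑ z ∈ G, wt ρ z

theorem wt_nonneg {ρ : ℝ} (h0 : 0 ≤ ρ) (h1 : ρ ≤ 1) {n : ℕ} (z : V n) : 0 ≤ wt ρ z := by
  unfold wt
  refine Finset.prod_nonneg fun i _ => ?_
  split_ifs <;> linarith

theorem mu_nonneg {ρ : ℝ} (h0 : 0 ≤ ρ) (h1 : ρ ≤ 1) {n : ℕ} (G : Finset (V n)) : 0 ≤ mu ρ G :=
  Finset.sum_nonneg fun z _ => wt_nonneg h0 h1 z

theorem mu_mono {ρ : ℝ} (h0 : 0 ≤ ρ) (h1 : ρ ≤ 1) {n : ℕ} {G G' : Finset (V n)} (h : G ⊆ G') :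
    mu ρ G ≤ mu ρ G' :=
  Finset.sum_le_sum_of_subset_of_nonneg h fun z _ _ => wt_nonneg h0 h1 z

theorem mu_succ (ρ : ℝ) {n : ℕ} (G : Finset (V (n + 1))) :
    mu ρ G = (1 - ρ) * mu ρ (sec 0 G) + ρ * mu ρ (sec 1 G) := by
  unfold mu
  rw [sum_sec, Finset.mul_sum, Finset.mul_sum]
  congr 1
  · refine Finset.sum_congr rfl fun y _ => ?_
    simp [wt, Fin.prod_univ_succ]
  · refine Finset.sum_congr rfl fun y _ => ?_
    simp [wt, Fin.prod_univ_succ]

/-- The sections of a sumset contain the sumsets of the sections. -/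
theorem add_sec_subset {n : ℕ} (a b : ZMod 2) (B B' : Finset (V (n + 1))) :
    sec a B + sec b B' ⊆ sec (a + b) (B + B') := by
  intro x hx
  rw [Finset.mem_add] at hx
  obtain ⟨y, hy, z, hz, rfl⟩ := hx
  rw [mem_sec] at hy hz ⊢
  rw [Finset.mem_add]
  refine ⟨_, hy, _, hz, ?_⟩
  funext i
  refine Fin.cases ?_ (fun j => ?_) i
  · simp
  · simp

/-- The cost function. -/
noncomputable def psi (ρ y : ℝ) : ℝ := y * max 0 (Real.log (y / ρ))

theorem psi_nonneg {ρ y : ℝ} (hy : 0 ≤ y) : 0 ≤ psi ρ y :=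
  mul_nonneg hy (le_max_left _ _)

theorem psi_mono {ρ : ℝ} (hρ : 0 < ρ) {x y : ℝ} (hx : 0 ≤ x) (hxy : x ≤ y) :
    psi ρ x ≤ psi ρ y := by
  unfold psi
  rcases hx.eq_or_lt with h | h
  · rw [← h, zero_mul]
    exact mul_nonneg (hx.trans hxy) (le_max_left _ _)
  · refine mul_le_mul hxy ?_ (le_max_left _ _) (hx.trans hxy)
    refine max_le_max le_rfl (Real.log_le_log (by positivity) ?_)
    exact div_le_div_of_nonneg_right hxy hρ.le

theorem psi_ge_of_one_le {ρ y : ℝ} (hρ : 0 < ρ) (hy : 1 ≤ y) :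
    -Real.log ρ ≤ psi ρ y := by
  have h1 : psi ρ 1 ≤ psi ρ y := psi_mono hρ zero_le_one hy
  refine le_trans ?_ h1
  unfold psi
  rw [one_mul, one_div, Real.log_inv]
  exact le_max_right _ _

/-- The potential of a set at flip rate `ρ`. -/
noncomputable def Phi (ρ : ℝ) : (n : ℕ) → Finset (V n) → ℝ
  | 0, _ => 0
  | n + 1, B =>
      psi ρ (2 * |((sec 1 B).card : ℝ) / B.card - ((sec 0 B).card : ℝ) / B.card|) +
        ((sec 0 B).card : ℝ) / B.card * Phi ρ n (sec 0 B) +
        ((sec 1 B).card : ℝ) / B.card * Phi ρ n (sec 1 B)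

/-- An average of two numbers is at least one of them that has positive weight. -/
theorem exists_le_avg {p0 p1 F0 F1 : ℝ} (h0 : 0 ≤ p0) (h1 : 0 ≤ p1) (hs : p0 + p1 = 1) :
    (0 < p0 ∧ F0 ≤ p0 * F0 + p1 * F1) ∨ (0 < p1 ∧ F1 ≤ p0 * F0 + p1 * F1) := by
  rcases h0.eq_or_lt with h | h
  · right
    have : p1 = 1 := by linarith
    rw [← h, this]
    constructor
    · norm_num
    · linarith
  · rcases h1.eq_or_lt with h' | h'
    · left
      have : p0 = 1 := by linarith
      rw [← h', this]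
      constructor
      · norm_num
      · linarith
    · rcases le_total F0 F1 with hF | hF
      · left
        refine ⟨h, ?_⟩
        have : p0 * F0 + p1 * F1 - F0 = p1 * (F1 - F0) := by
          have : p0 = 1 - p1 := by linarith
          rw [this]; ring
        nlinarith
      · right
        refine ⟨h', ?_⟩
        have : p0 * F0 + p1 * F1 - F1 = p0 * (F0 - F1) := by
          have : p1 = 1 - p0 := by linarith
          rw [this]; ring
        nlinarith

/-- The two-point inequality behind the transport inequality. -/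
theorem two_point {ρ : ℝ} (hρ : 0 < ρ) (hρ4 : ρ ≤ 1 / 4)
    {p0 p1 q0 q1 F0 F1 H0 H1 M0 M1 : ℝ}
    (hp0 : 0 ≤ p0) (hp1 : 0 ≤ p1) (hp : p0 + p1 = 1)
    (hq0 : 0 ≤ q0) (hq1 : 0 ≤ q1) (hq : q0 + q1 = 1)
    (hM0 : 0 ≤ M0) (hM1 : 0 ≤ M1)
    (h00 : 0 < p0 → 0 < q0 → Real.exp (-(F0 + H0)) ≤ M0)
    (h11 : 0 < p1 → 0 < q1 → Real.exp (-(F1 + H1)) ≤ M0)
    (h01 : 0 < p0 → 0 < q1 → Real.exp (-(F0 + H1)) ≤ M1)
    (h10 : 0 < p1 → 0 < q0 → Real.exp (-(F1 + H0)) ≤ M1) :
    Real.exp (-((psi ρ (2 * |p1 - p0|) + p0 * F0 + p1 * F1) +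
      (psi ρ (2 * |q1 - q0|) + q0 * H0 + q1 * H1))) ≤ (1 - ρ) * M0 + ρ * M1 := by
  have hψ1 : 0 ≤ psi ρ (2 * |p1 - p0|) := psi_nonneg (by positivity)
  have hψ2 : 0 ≤ psi ρ (2 * |q1 - q0|) := psi_nonneg (by positivity)
  by_cases hcase : 1 ≤ 2 * |p1 - p0| ∨ 1 ≤ 2 * |q1 - q0|
  · -- crude case
    have hψ : -Real.log ρ ≤ psi ρ (2 * |p1 - p0|) + psi ρ (2 * |q1 - q0|) := by
      rcases hcase with h | h
      · have := psi_ge_of_one_le hρ h
        linarith
      · have := psi_ge_of_one_le hρ h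
        linarith
    have key : ∀ M F H : ℝ, M = M0 ∨ M = M1 → Real.exp (-(F + H)) ≤ M →
        F ≤ p0 * F0 + p1 * F1 → H ≤ q0 * H0 + q1 * H1 →
        Real.exp (-((psi ρ (2 * |p1 - p0|) + p0 * F0 + p1 * F1) +
          (psi ρ (2 * |q1 - q0|) + q0 * H0 + q1 * H1))) ≤ (1 - ρ) * M0 + ρ * M1 := by
      intro M F H hM hFH hF hH
      have h1 : Real.exp (-((psi ρ (2 * |p1 - p0|) + p0 * F0 + p1 * F1) +
          (psi ρ (2 * |q1 - q0|) + q0 * H0 + q1 * H1))) ≤ Real.exp (Real.log ρ + -(F + H)) := by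
        apply Real.exp_le_exp.mpr
        linarith
      rw [Real.exp_add, Real.exp_log hρ] at h1
      have h2 : ρ * Real.exp (-(F + H)) ≤ ρ * M := mul_le_mul_of_nonneg_left hFH hρ.le
      rcases hM with rfl | rfl
      · nlinarith
      · nlinarith
    rcases exists_le_avg (F0 := F0) (F1 := F1) hp0 hp1 hp with ⟨ha, hb⟩ | ⟨ha, hb⟩ <;>
    rcases exists_le_avg (F0 := H0) (F1 := H1) hq0 hq1 hq with ⟨hc, hd⟩ | ⟨hc, hd⟩
    · exact key M0 F0 H0 (Or.inl rfl) (h00 ha hc) hb hd
    · exact key M1 F0 H1 (Or.inr rfl) (h01 ha hc) hb hd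
    · exact key M1 F1 H0 (Or.inr rfl) (h10 ha hc) hb hd
    · exact key M0 F1 H1 (Or.inl rfl) (h11 ha hc) hb hd
  · push Not at hcase
    obtain ⟨hc1, hc2⟩ := hcase
    have hp1' : |p1 - p0| < 1 / 2 := by linarith
    have hq1' : |q1 - q0| < 1 / 2 := by linarith
    rw [abs_lt] at hp1' hq1'
    have e1 : 1 / 4 < p0 := by linarith
    have e2 : 1 / 4 < p1 := by linarith
    have e3 : 1 / 4 < q0 := by linarith
    have e4 : 1 / 4 < q1 := by linarith
    have h00' := h00 (by linarith) (by linarith)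
    have h11' := h11 (by linarith) (by linarith)
    have h01' := h01 (by linarith) (by linarith)
    have h10' := h10 (by linarith) (by linarith)
    -- the coupling
    set d : ℝ := |p1 - q1| with hd
    set q : ℝ := max d ρ with hqdef
    have hd0 : 0 ≤ d := abs_nonneg _
    have hd1 : d < 1 / 2 := by
      rw [hd, abs_lt]
      constructor <;> linarith
    have hqρ : ρ ≤ q := le_max_right _ _
    have hqd : d ≤ q := le_max_left _ _
    have hq0' : 0 < q := lt_of_lt_of_le hρ hqρ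
    have hq1'' : q < 1 / 2 := max_lt hd1 (by linarith)
    have habs := abs_le.mp hqd
    -- exponents
    set E0 : ℝ := max (-(F0 + H0)) (-(F1 + H1)) with hE0
    set E1 : ℝ := max (-(F0 + H1)) (-(F1 + H0)) with hE1
    have hM0E : Real.exp E0 ≤ M0 := by
      rw [hE0]
      rcases max_choice (-(F0 + H0)) (-(F1 + H1)) with h | h <;> rw [h] <;> assumption
    have hM1E : Real.exp E1 ≤ M1 := by
      rw [hE1]
      rcases max_choice (-(F0 + H1)) (-(F1 + H0)) with h | h <;> rw [h] <;> assumption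
    have hconv := convexOn_exp.2 (Set.mem_univ (Real.log ((1 - ρ) / (1 - q)) + E0))
      (Set.mem_univ (Real.log (ρ / q) + E1)) (by linarith : (0 : ℝ) ≤ 1 - q) hq0'.le (by ring)
    simp only [smul_eq_mul] at hconv
    rw [Real.exp_add (Real.log ((1 - ρ) / (1 - q))) E0, Real.exp_add (Real.log (ρ / q)) E1,
      Real.exp_log (div_pos (by linarith) (by linarith)),
      Real.exp_log (div_pos hρ hq0')] at hconv
    have hr1 : (1 - q) * ((1 - ρ) / (1 - q) * Real.exp E0) = (1 - ρ) * Real.exp E0 := by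
      have : (1 - q) ≠ 0 := by linarith
      field_simp
    have hr2 : q * (ρ / q * Real.exp E1) = ρ * Real.exp E1 := by
      field_simp
    rw [hr1, hr2] at hconv
    have hfin : (1 - ρ) * Real.exp E0 + ρ * Real.exp E1 ≤ (1 - ρ) * M0 + ρ * M1 := by
      have := mul_le_mul_of_nonneg_left hM0E (by linarith : (0 : ℝ) ≤ 1 - ρ)
      have := mul_le_mul_of_nonneg_left hM1E hρ.le
      linarith
    refine le_trans (Real.exp_le_exp.mpr ?_) (hconv.trans hfin)
    -- now compare exponents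
    have hlog1 : 0 ≤ (1 - q) * Real.log ((1 - ρ) / (1 - q)) := by
      refine mul_nonneg (by linarith) (Real.log_nonneg ?_)
      rw [le_div_iff₀ (by linarith)]
      linarith
    have hlog2 : -(psi ρ (2 * |p1 - p0|) + psi ρ (2 * |q1 - q0|)) ≤ q * Real.log (ρ / q) := by
      rcases le_total d ρ with hdρ | hdρ
      · have : q = ρ := max_eq_right hdρ
        rw [this, div_self hρ.ne', Real.log_one, mul_zero]
        linarith
      · have hqeq : q = d := max_eq_left hdρ
        have hdpos : 0 < d := lt_of_lt_of_le hρ hdρ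
        have h1 : q * Real.log (ρ / q) = -psi ρ d := by
          rw [hqeq]
          unfold psi
          have : Real.log (ρ / d) = -Real.log (d / ρ) := by
            rw [← Real.log_inv, inv_div]
          rw [this, max_eq_right]
          · ring
          · apply Real.log_nonneg
            rw [le_div_iff₀ hρ]
            linarith
        rw [h1, neg_le_neg_iff]
        have hdle : d ≤ max (2 * |p1 - p0|) (2 * |q1 - q0|) := by
          have hid : p1 - q1 = ((p1 - p0) - (q1 - q0)) / 2 := by linarith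
          rw [hd, hid, abs_div, abs_two]
          have := abs_sub (p1 - p0) (q1 - q0)
          have h3 := le_max_left (2 * |p1 - p0|) (2 * |q1 - q0|)
          have h4 := le_max_right (2 * |p1 - p0|) (2 * |q1 - q0|)
          have h5 := abs_nonneg (p1 - p0)
          have h6 := abs_nonneg (q1 - q0)
          linarith
        have h2 := psi_mono hρ hd0 hdle
        rcases max_choice (2 * |p1 - p0|) (2 * |q1 - q0|) with h | h
        · rw [h] at h2
          linarith
        · rw [h] at h2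
          linarith
    -- coupling masses
    have t00 : 0 ≤ (p0 + q0 - q) / 2 := by linarith
    have t11 : 0 ≤ (p1 + q1 - q) / 2 := by linarith
    have t10 : 0 ≤ (p1 - q1 + q) / 2 := by linarith [habs.1]
    have t01 : 0 ≤ (q1 - p1 + q) / 2 := by linarith [habs.2]
    have g1 : (p0 + q0 - q) / 2 * (-(F0 + H0)) ≤ (p0 + q0 - q) / 2 * E0 :=
      mul_le_mul_of_nonneg_left (le_max_left _ _) t00
    have g2 : (p1 + q1 - q) / 2 * (-(F1 + H1)) ≤ (p1 + q1 - q) / 2 * E0 :=
      mul_le_mul_of_nonneg_left (le_max_right _ _) t11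
    have g3 : (q1 - p1 + q) / 2 * (-(F0 + H1)) ≤ (q1 - p1 + q) / 2 * E1 :=
      mul_le_mul_of_nonneg_left (le_max_left _ _) t01
    have g4 : (p1 - q1 + q) / 2 * (-(F1 + H0)) ≤ (p1 - q1 + q) / 2 * E1 :=
      mul_le_mul_of_nonneg_left (le_max_right _ _) t10
    have hsub0 : p0 = 1 - p1 := by linarith
    have hsub1 : q0 = 1 - q1 := by linarith
    have s1 : (p0 + q0 - q) / 2 * E0 + (p1 + q1 - q) / 2 * E0 = (1 - q) * E0 := by
      rw [hsub0, hsub1]; ring
    have s2 : (q1 - p1 + q) / 2 * E1 + (p1 - q1 + q) / 2 * E1 = q * E1 := by ring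
    have s3 : (p0 + q0 - q) / 2 * (-(F0 + H0)) + (p1 + q1 - q) / 2 * (-(F1 + H1)) +
        (q1 - p1 + q) / 2 * (-(F0 + H1)) + (p1 - q1 + q) / 2 * (-(F1 + H0)) =
        -(p0 * F0 + p1 * F1 + q0 * H0 + q1 * H1) := by
      rw [hsub0, hsub1]; ring
    have s4 : (1 - q) * (Real.log ((1 - ρ) / (1 - q)) + E0) + q * (Real.log (ρ / q) + E1) =
        (1 - q) * Real.log ((1 - ρ) / (1 - q)) + q * Real.log (ρ / q) +
          ((1 - q) * E0 + q * E1) := by ring
    rw [s4, ← s1, ← s2]
    have s5 : -(p0 * F0 + p1 * F1 + q0 * H0 + q1 * H1) ≤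
        (p0 + q0 - q) / 2 * E0 + (p1 + q1 - q) / 2 * E0 +
          ((q1 - p1 + q) / 2 * E1 + (p1 - q1 + q) / 2 * E1) := by
      rw [← s3]
      linarith only [g1, g2, g3, g4]
    linarith only [s5, hlog1, hlog2]

theorem card_div_nonneg {n : ℕ} (a : ZMod 2) (B : Finset (V (n + 1))) :
    0 ≤ ((sec a B).card : ℝ) / B.card := by positivity

theorem card_div_add {n : ℕ} {B : Finset (V (n + 1))} (hB : B.Nonempty) :
    ((sec 0 B).card : ℝ) / B.card + ((sec 1 B).card : ℝ) / B.card = 1 := by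
  have h : (0 : ℝ) < B.card := by exact_mod_cast hB.card_pos
  rw [← add_div, ← card_sec, div_self h.ne']

theorem nonempty_of_div_pos {n : ℕ} {a : ZMod 2} {B : Finset (V (n + 1))}
    (h : 0 < ((sec a B).card : ℝ) / B.card) : (sec a B).Nonempty := by
  rw [← Finset.card_pos]
  by_contra h0
  have : (sec a B).card = 0 := by omega
  rw [this] at h
  simp at h

/-- **One-scale transport inequality.** -/
theorem transport {ρ : ℝ} (hρ : 0 < ρ) (hρ4 : ρ ≤ 1 / 4) : ∀ (n : ℕ) (B B' : Finset (V n)),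
    B.Nonempty → B'.Nonempty → Real.exp (-(Phi ρ n B + Phi ρ n B')) ≤ mu ρ (B + B')
  | 0, B, B', hB, hB' => by
      have h1 : (B + B') = univ := by
        obtain ⟨x, hx⟩ := (hB.add hB')
        ext y
        simp only [Finset.mem_univ, iff_true]
        have : y = x := Subsingleton.elim _ _
        rw [this]
        exact hx
      rw [h1]
      simp [Phi, mu, wt]
  | n + 1, B, B', hB, hB' => by
      have ih := transport hρ hρ4 n
      rw [mu_succ]
      have hρ1 : ρ ≤ 1 := by linarith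
      have key : ∀ a b : ZMod 2, 0 < ((sec a B).card : ℝ) / B.card →
          0 < ((sec b B').card : ℝ) / B'.card →
          Real.exp (-(Phi ρ n (sec a B) + Phi ρ n (sec b B'))) ≤ mu ρ (sec (a + b) (B + B')) := by
        intro a b ha hb
        refine le_trans (ih _ _ (nonempty_of_div_pos ha) (nonempty_of_div_pos hb)) ?_
        exact mu_mono hρ.le hρ1 (add_sec_subset a b B B')
      have k00 := key 0 0
      have k11 := key 1 1
      have k01 := key 0 1
      have k10 := key 1 0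
      have e11 : (1 : ZMod 2) + 1 = 0 := by decide
      have e00 : (0 : ZMod 2) + 0 = 0 := by decide
      have e01 : (0 : ZMod 2) + 1 = 1 := by decide
      have e10 : (1 : ZMod 2) + 0 = 1 := by decide
      rw [e00] at k00
      rw [e11] at k11
      rw [e01] at k01
      rw [e10] at k10
      simp only [Phi]
      exact two_point hρ hρ4 (card_div_nonneg 0 B) (card_div_nonneg 1 B) (card_div_add hB)
        (card_div_nonneg 0 B') (card_div_nonneg 1 B') (card_div_add hB')
        (mu_nonneg hρ.le hρ1 _) (mu_nonneg hρ.le hρ1 _) k00 k11 k01 k10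

end Pool.Agent.H290R2.FS
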