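import Pool.Agent.H290R2.FS.Tools

set_option autoImplicit false

/-!
# A dense set whose sumset contains no structured `B + B`
-/

namespace Pool.Agent.H290R2.FS

open Finset
open scoped Pointwise

theorem one_scale {n : ℕ} {ρ : ℝ} (hρ : 0 < ρ) (hρ4 : ρ ≤ 1 / 4)
    (hρn : 1 / (64 * ρ) + 1 ≤ ρ * n) {ι : Type*} [Fintype ι] [DecidableEq ι]
    (B : ι → Finset (V n)) {T : ℕ} (hT : 0 < T) (hcard : Fintype.card ι ≤ 2 ^ T) :
    ∃ X : Finset (V n), (∀ z ∈ X, (hw z : ℝ) ≤ 4 * ρ * n) ∧
      (X.card : ℝ) ≤ 4 * T * Real.exp (1 / (64 * ρ)) ∧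
      ∀ i, Real.exp (-(1 / (64 * ρ))) ≤ mu ρ (B i + (B i).image (fun y => y + one n)) →
        ∃ z ∈ X, one n + z ∈ B i + B i := by
  classical
  have hρ1 : ρ ≤ 1 := by linarith
  set E : ℝ := Real.exp (-(1 / (64 * ρ))) with hE
  have hE0 : 0 < E := Real.exp_pos _
  have hE1 : E ≤ 1 := by
    rw [hE]
    apply Real.exp_le_one_iff.mpr
    have : 0 < 1 / (64 * ρ) := by positivity
    linarith
  set γ : ℝ := E / 2 with hγ
  set Z : Finset (V n) := univ.filter (fun z => (hw z : ℝ) ≤ 4 * ρ * n) with hZ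
  set I : Finset ι := univ.filter
    (fun i => E ≤ mu ρ (B i + (B i).image (fun y => y + one n))) with hI
  set G : ι → Finset (V n) := fun i => Z.filter (fun z => one n + z ∈ B i + B i) with hG
  have htail : mu ρ (univ.filter (fun z : V n => 4 * ρ * n < hw z)) ≤ E / 2 := by
    refine (tail hρ.le hρ1 n (4 * ρ * n)).trans ?_
    have h1 : E / 2 = Real.exp (-(1 / (64 * ρ)) - Real.log 2) := by
      rw [Real.exp_sub, Real.exp_log (by norm_num)]
    rw [h1]
    apply Real.exp_le_exp.mpr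
    have h2 := Real.log_two_gt_d9
    have h3 := Real.log_two_lt_d9
    have h4 : 0 < ρ * n := by
      have : 0 < 1 / (64 * ρ) := by positivity
      linarith
    nlinarith
  have hgood : ∀ i ∈ I, γ ≤ ∑ z ∈ G i, wt ρ z := by
    intro i hi
    rw [hI, Finset.mem_filter] at hi
    have hsub : B i + (B i).image (fun y => y + one n) ⊆
        G i ∪ univ.filter (fun z : V n => 4 * ρ * n < hw z) := by
      intro z hz
      rw [Finset.mem_union]
      rcases le_or_gt (hw z : ℝ) (4 * ρ * n) with h | h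
      · left
        rw [hG, Finset.mem_filter, hZ, Finset.mem_filter]
        refine ⟨⟨Finset.mem_univ _, h⟩, ?_⟩
        rw [Finset.mem_add] at hz
        obtain ⟨b, hb, b', hb', rfl⟩ := hz
        rw [Finset.mem_image] at hb'
        obtain ⟨b'', hb'', rfl⟩ := hb'
        rw [Finset.mem_add]
        refine ⟨b, hb, b'', hb'', ?_⟩
        funext j
        simp only [Pi.add_apply, one]
        have : ∀ x y : ZMod 2, x + y = 1 + (x + (y + 1)) := by decide
        exact this _ _
      · right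
        rw [Finset.mem_filter]
        exact ⟨Finset.mem_univ _, h⟩
    have h1 := mu_mono hρ.le hρ1 hsub
    have h2 : mu ρ (G i ∪ univ.filter (fun z : V n => 4 * ρ * n < hw z)) ≤
        mu ρ (G i) + mu ρ (univ.filter (fun z : V n => 4 * ρ * n < hw z)) := by
      unfold mu
      rw [← Finset.sum_union_inter]
      have : 0 ≤ ∑ z ∈ G i ∩ univ.filter (fun z : V n => 4 * ρ * n < hw z), wt ρ z :=
        Finset.sum_nonneg fun z _ => wt_nonneg hρ.le hρ1 z
      linarith
    have h3 := hi.2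
    change γ ≤ mu ρ (G i)
    rw [hγ]
    linarith
  have hsumZ : ∑ z ∈ Z, wt ρ z ≤ 1 := by
    rw [← sum_wt ρ n]
    exact Finset.sum_le_sum_of_subset_of_nonneg (Finset.subset_univ _)
      fun z _ _ => wt_nonneg hρ.le hρ1 z
  have hγ0 : 0 < γ := by positivity
  have hγ1 : γ ≤ 1 := by rw [hγ]; linarith
  obtain ⟨X, hXZ, hXN, hX⟩ := hitting I Z (wt ρ) (fun z _ => wt_nonneg hρ.le hρ1 z) hsumZ G
    (fun i _ => Finset.filter_subset _ _) hγ0 hγ1 hgood ⌈(T : ℝ) / γ⌉₊
  have hT' : (1 : ℝ) ≤ T := by exact_mod_cast hT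
  refine ⟨X, ?_, ?_, ?_⟩
  · intro z hz
    have := hXZ hz
    rw [hZ, Finset.mem_filter] at this
    exact this.2
  · have h1 : (X.card : ℝ) ≤ (⌈(T : ℝ) / γ⌉₊ : ℝ) := by exact_mod_cast hXN
    have h2 : (⌈(T : ℝ) / γ⌉₊ : ℝ) < (T : ℝ) / γ + 1 := Nat.ceil_lt_add_one (by positivity)
    have h3 : (1 : ℝ) ≤ (T : ℝ) / γ := by
      rw [le_div_iff₀ hγ0]
      linarith
    have h4 : (T : ℝ) / γ = 2 * T * Real.exp (1 / (64 * ρ)) := by
      rw [hγ, hE, Real.exp_neg]
      field_simp
    rw [h4] at h1 h2 h3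
    linarith
  · intro i hi
    have hiI : i ∈ I := by
      rw [hI, Finset.mem_filter]
      exact ⟨Finset.mem_univ _, hi⟩
    by_contra hcon
    push Not at hcon
    have hmem : i ∈ I.filter (fun i => Disjoint X (G i)) := by
      rw [Finset.mem_filter]
      refine ⟨hiI, ?_⟩
      rw [Finset.disjoint_left]
      intro z hz hz'
      rw [hG, Finset.mem_filter] at hz'
      exact hcon z hz hz'.2
    have hpos : (1 : ℝ) ≤ (I.filter (fun i => Disjoint X (G i))).card := by
      have := Finset.card_pos.mpr ⟨i, hmem⟩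
      exact_mod_cast this
    have hIc : (I.card : ℝ) ≤ 2 ^ T := by
      have h1 : I.card ≤ Fintype.card ι := Finset.card_le_univ I
      exact_mod_cast h1.trans hcard
    have h1 : (1 - γ) ^ ⌈(T : ℝ) / γ⌉₊ ≤ Real.exp (-T) := by
      calc (1 - γ) ^ ⌈(T : ℝ) / γ⌉₊ ≤ (Real.exp (-γ)) ^ ⌈(T : ℝ) / γ⌉₊ := by
            refine pow_le_pow_left₀ (by linarith) ?_ _
            have := Real.add_one_le_exp (-γ)
            linarith
        _ = Real.exp (-γ * ⌈(T : ℝ) / γ⌉₊) := by
            rw [Real.exp_mul, Real.rpow_natCast]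
        _ ≤ Real.exp (-T) := by
            apply Real.exp_le_exp.mpr
            have h2 : (T : ℝ) / γ ≤ ⌈(T : ℝ) / γ⌉₊ := Nat.le_ceil _
            rw [div_le_iff₀ hγ0] at h2
            linarith
    have h2 : (2 : ℝ) ^ T = Real.exp (T * Real.log 2) := by
      rw [mul_comm, Real.exp_mul, Real.exp_log (by norm_num), Real.rpow_natCast]
    have h3 : (1 : ℝ) ≤ Real.exp (-T) * 2 ^ T :=
      calc (1 : ℝ) ≤ _ := hpos
        _ ≤ (1 - γ) ^ ⌈(T : ℝ) / γ⌉₊ * I.card := hX
        _ ≤ Real.exp (-T) * 2 ^ T :=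
            mul_le_mul h1 hIc (Nat.cast_nonneg _) (Real.exp_pos _).le
    rw [h2, ← Real.exp_add] at h3
    have h4 : Real.exp (-(T : ℝ) + T * Real.log 2) < 1 := by
      rw [Real.exp_lt_one_iff]
      have := Real.log_two_lt_d9
      nlinarith
    linarith

/-- The family of sumsets encoded by an array. -/
def enc {n M : ℕ} (g : Fin M → Fin M → V n) : Finset (V n) :=
  univ.image (fun h : Fin M → Fin M => ∑ i, g i (h i))

theorem exists_param (J K : ℕ) : ∃ v : ℕ, 1 ≤ v ∧
    128 * (J : ℝ) * ((16 ^ (J + 3) * v ^ 2 : ℕ) : ℝ) *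
      ((((K + 1) * (16 ^ (J + 3) * v ^ 2 + 1) ^ (K + 1) : ℕ) : ℝ)) ^ 2 ≤ Real.exp v := by
  set D : ℝ := 16 ^ (J + 3) with hD
  have hD1 : 1 ≤ D := one_le_pow₀ (by norm_num)
  set C0 : ℝ := 128 * (J : ℝ) * D * ((K + 1) * (2 * D) ^ (K + 1)) ^ 2 with hC0
  have h1 := (Real.tendsto_exp_div_pow_atTop (2 + 2 * (2 * (K + 1)))).comp
    (tendsto_natCast_atTop_atTop (R := ℝ))
  have h2 := h1.eventually_ge_atTop C0
  obtain ⟨v, hv, hv1⟩ := (h2.and (Filter.eventually_ge_atTop 1)).exists
  refine ⟨v, hv1, ?_⟩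
  have hvr : (1 : ℝ) ≤ v := by exact_mod_cast hv1
  simp only [Function.comp_apply] at hv
  rw [le_div_iff₀ (by positivity)] at hv
  refine le_trans ?_ hv
  push_cast
  rw [← hD]
  have h3 : D * (v : ℝ) ^ 2 + 1 ≤ 2 * D * v ^ 2 := by nlinarith [sq_nonneg ((v : ℝ) - 1)]
  have h4 : (D * (v : ℝ) ^ 2 + 1) ^ (K + 1) ≤ (2 * D * v ^ 2) ^ (K + 1) :=
    pow_le_pow_left₀ (by positivity) h3 _
  calc 128 * (J : ℝ) * (D * v ^ 2) * (((K : ℝ) + 1) * (D * v ^ 2 + 1) ^ (K + 1)) ^ 2
      ≤ 128 * (J : ℝ) * (D * v ^ 2) * (((K : ℝ) + 1) * (2 * D * v ^ 2) ^ (K + 1)) ^ 2 := by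
        gcongr
    _ = C0 * (v : ℝ) ^ (2 + 2 * (2 * (K + 1))) := by
        rw [hC0, mul_pow (2 * D) ((v : ℝ) ^ 2) (K + 1)]
        ring

/-- The construction: for all `c > 0` and `K` there are `n` and a set `A` of density at least
`1/100` in `F_2^n` such that no dense sumset `B` encoded by an `M × M` array,
`M = (K + 1) (n + 1)^(K + 1)`, satisfies `B + B ⊆ A + A`. -/
theorem construction (c : ℝ) (hc0 : 0 < c) (hc1 : c ≤ 1) (K : ℕ) :
    ∃ (n : ℕ) (A : Finset (V n)), 0.01 * (2 : ℝ) ^ n ≤ (A.card : ℝ) ∧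
      ∀ g : Fin ((K + 1) * (n + 1) ^ (K + 1)) → Fin ((K + 1) * (n + 1) ^ (K + 1)) → V n,
        c * 2 ^ n ≤ ((enc g).card : ℝ) → ¬ (enc g + enc g ⊆ A + A) := by
  classical
  set L : ℝ := Real.log (1 / c) with hL
  have hL0 : 0 ≤ L := by
    apply Real.log_nonneg
    rw [le_div_iff₀ hc0]
    linarith
  obtain ⟨J, hJ⟩ := exists_nat_gt (6144 * L)
  have hJpos' : (0 : ℝ) < J := lt_of_le_of_lt (by positivity) hJ
  have hJpos : 0 < J := by exact_mod_cast hJpos'
  obtain ⟨v, hv1, hv⟩ := exists_param J K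
  have hvr : (1 : ℝ) ≤ v := by exact_mod_cast hv1
  set n : ℕ := 16 ^ (J + 3) * v ^ 2 with hn
  set k : ℝ := 4 ^ (J + 3) * v with hk
  have hnk : (n : ℝ) = k ^ 2 := by
    rw [hn, hk]
    push_cast
    have : (16 : ℝ) = 4 ^ 2 := by norm_num
    rw [this, mul_pow, ← pow_mul, ← pow_mul]
    ring_nf
  have hk0 : 0 < k := by positivity
  have hk64 : 64 ≤ k := by
    rw [hk]
    have h1 : (64 : ℝ) ≤ 4 ^ (J + 3) := by
      calc (64 : ℝ) = 4 ^ 3 := by norm_num
        _ ≤ 4 ^ (J + 3) := pow_le_pow_right₀ (by norm_num) (by omega)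
    nlinarith
  have hn0 : 0 < n := by
    rw [hn]; positivity
  have hsqrt : Real.sqrt n = k := by
    rw [hnk, Real.sqrt_sq hk0.le]
  set M : ℕ := (K + 1) * (n + 1) ^ (K + 1) with hM
  have hM0 : 0 < M := by
    rw [hM]; positivity
  set T : ℕ := n * (M * M) with hT
  have hT0 : 0 < T := by
    rw [hT]; positivity
  set r : ℝ := 4 ^ J / k with hr
  have hr0 : 0 < r := by positivity
  have hrv : r = 1 / (64 * v) := by
    rw [hr, hk, pow_add]
    field_simp
    norm_num
  have hr4 : r ≤ 1 / 4 := by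
    rw [hrv]
    rw [div_le_div_iff₀ (by positivity) (by norm_num)]
    linarith
  have hscale : ∀ j ∈ range J, 0 < r / 4 ^ j ∧ r / 4 ^ j ≤ 1 / 4 ∧ 4 / k ≤ r / 4 ^ j ∧
      r / 4 ^ j ≤ 1 / (64 * v) := by
    intro j hj
    rw [Finset.mem_range] at hj
    have h1 : r / 4 ^ j ≤ r := div_le_self hr0.le (one_le_pow₀ (by norm_num))
    refine ⟨by positivity, h1.trans hr4, ?_, ?_⟩
    · have e1 : (4 : ℝ) * 4 ^ j ≤ 4 ^ J := by
        calc (4 : ℝ) * 4 ^ j = 4 ^ (j + 1) := by ring
          _ ≤ 4 ^ J := pow_le_pow_right₀ (by norm_num) (by omega)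
      rw [hr, div_div, div_le_div_iff₀ hk0 (by positivity)]
      have e2 := mul_le_mul_of_nonneg_right e1 hk0.le
      linarith
    · rw [← hrv]; exact h1
  have hone : ∀ j ∈ range J, ∃ X : Finset (V n), (∀ z ∈ X, (hw z : ℝ) ≤ 4 * (r / 4 ^ j) * n) ∧
      (X.card : ℝ) ≤ 4 * T * Real.exp (1 / (64 * (r / 4 ^ j))) ∧
      ∀ g : Fin M → Fin M → V n, Real.exp (-(1 / (64 * (r / 4 ^ j)))) ≤
        mu (r / 4 ^ j) (enc g + (enc g).image (fun y => y + one n)) →
        ∃ z ∈ X, one n + z ∈ enc g + enc g := by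
    intro j hj
    obtain ⟨h1, h2, h3, h4⟩ := hscale j hj
    refine one_scale h1 h2 ?_ (fun g : Fin M → Fin M → V n => enc g) hT0 ?_
    · have e1 : 4 * k ≤ r / 4 ^ j * n := by
        rw [hnk]
        have := mul_le_mul_of_nonneg_right h3 (by positivity : (0 : ℝ) ≤ k ^ 2)
        have e : 4 / k * k ^ 2 = 4 * k := by field_simp
        rw [e] at this
        exact this
      have e2 : 1 / (64 * (r / 4 ^ j)) ≤ k / 256 := by
        rw [div_le_div_iff₀ (by positivity) (by norm_num)]
        rw [div_le_iff₀ hk0] at h3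
        nlinarith
      linarith
    · have : Fintype.card (Fin M → Fin M → V n) = 2 ^ T := by
        rw [Fintype.card_fun, Fintype.card_fun, Fintype.card_fun]
        simp only [Fintype.card_fin, ZMod.card]
        rw [← pow_mul, ← pow_mul, hT, mul_assoc]
      exact this.le
  choose! X hX1 hX2 hX3 using hone
  set τ : ℝ := Real.sqrt n / 2 with hτ
  set A : Finset (V n) := (ball n τ).filter
    (fun y => ∀ j ∈ range J, ∀ z ∈ X j, y + (one n + z) ∉ ball n τ) with hA
  refine ⟨n, A, ?_, ?_⟩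
  · -- density
    have hball := ball_card n hn0
    rw [← hτ] at hball
    have hdel : ∀ j ∈ range J, ∀ z ∈ X j,
        (((ball n τ).filter (fun y => y + (one n + z) ∈ ball n τ)).card : ℝ) ≤
          2 ^ n * Real.exp (-(1 / (32 * (r / 4 ^ j)))) := by
      intro j hj z hz
      obtain ⟨h1, h2, h3, h4⟩ := hscale j hj
      have hn0' : (0 : ℝ) < n := by exact_mod_cast hn0
      have h5 := deletion (τ := τ) (w := 4 * (r / 4 ^ j) * n) (by positivity) (by positivity) z
        (hX1 j hj z hz)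
      have h6 : τ ^ 2 / (2 * (4 * (r / 4 ^ j) * n)) = 1 / (32 * (r / 4 ^ j)) := by
        rw [hτ, div_pow, Real.sq_sqrt hn0'.le]
        field_simp
        norm_num
      rw [h6] at h5
      exact h5
    have hsub : ball n τ ⊆ A ∪ (range J).biUnion (fun j => (X j).biUnion
        (fun z => (ball n τ).filter (fun y => y + (one n + z) ∈ ball n τ))) := by
      intro y hy
      rw [Finset.mem_union]
      by_cases h : y ∈ A
      · exact Or.inl h
      · right
        rw [hA, Finset.mem_filter] at h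
        push Not at h
        obtain ⟨j, hj, z, hz, hyz⟩ := h hy
        rw [Finset.mem_biUnion]
        refine ⟨j, hj, ?_⟩
        rw [Finset.mem_biUnion]
        refine ⟨z, hz, ?_⟩
        rw [Finset.mem_filter]
        exact ⟨hy, hyz⟩
    have hc1 := (Finset.card_le_card hsub).trans (Finset.card_union_le _ _)
    have hc2 : ((ball n τ).card : ℝ) ≤ A.card + (((range J).biUnion (fun j => (X j).biUnion
        (fun z => (ball n τ).filter (fun y => y + (one n + z) ∈ ball n τ)))).card : ℝ) := by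
      exact_mod_cast hc1
    have hc3 : ((((range J).biUnion (fun j => (X j).biUnion
        (fun z => (ball n τ).filter (fun y => y + (one n + z) ∈ ball n τ)))).card : ℕ) : ℝ) ≤
        2 ^ n / 32 := by
      have d1 : (((range J).biUnion (fun j => (X j).biUnion
          (fun z => (ball n τ).filter (fun y => y + (one n + z) ∈ ball n τ)))).card) ≤
          ∑ j ∈ range J, ∑ z ∈ X j,
            ((ball n τ).filter (fun y => y + (one n + z) ∈ ball n τ)).card := by
        refine Finset.card_biUnion_le.trans ?_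
        exact Finset.sum_le_sum fun j _ => Finset.card_biUnion_le
      have d2 : ((((range J).biUnion (fun j => (X j).biUnion
          (fun z => (ball n τ).filter (fun y => y + (one n + z) ∈ ball n τ)))).card : ℕ) : ℝ) ≤
          ∑ j ∈ range J, ∑ z ∈ X j,
            (((ball n τ).filter (fun y => y + (one n + z) ∈ ball n τ)).card : ℝ) := by
        exact_mod_cast d1
      refine d2.trans ?_
      have d3 : ∀ j ∈ range J, ∑ z ∈ X j,
            (((ball n τ).filter (fun y => y + (one n + z) ∈ ball n τ)).card : ℝ) ≤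
            4 * T * Real.exp (-v) * 2 ^ n := by
        intro j hj
        obtain ⟨h1, h2, h3, h4⟩ := hscale j hj
        have d4 : ∑ z ∈ X j,
            (((ball n τ).filter (fun y => y + (one n + z) ∈ ball n τ)).card : ℝ) ≤
            (X j).card * (2 ^ n * Real.exp (-(1 / (32 * (r / 4 ^ j))))) := by
          rw [← nsmul_eq_mul]
          exact Finset.sum_le_card_nsmul _ _ _ fun z hz => hdel j hj z hz
        refine d4.trans ?_
        have d5 : ((X j).card : ℝ) * (2 ^ n * Real.exp (-(1 / (32 * (r / 4 ^ j))))) ≤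
            (4 * T * Real.exp (1 / (64 * (r / 4 ^ j)))) *
              (2 ^ n * Real.exp (-(1 / (32 * (r / 4 ^ j))))) :=
          mul_le_mul_of_nonneg_right (hX2 j hj) (by positivity)
        refine d5.trans ?_
        have d6 : (4 * T * Real.exp (1 / (64 * (r / 4 ^ j)))) *
              (2 ^ n * Real.exp (-(1 / (32 * (r / 4 ^ j))))) =
            4 * T * (Real.exp (1 / (64 * (r / 4 ^ j))) *
              Real.exp (-(1 / (32 * (r / 4 ^ j))))) * 2 ^ n := by ring
        rw [d6, ← Real.exp_add]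
        have d7 : (v : ℝ) ≤ 1 / (64 * (r / 4 ^ j)) := by
          rw [le_div_iff₀ (by positivity)] at h4 ⊢
          linarith
        have d8 : 1 / (64 * (r / 4 ^ j)) + -(1 / (32 * (r / 4 ^ j))) =
            -(1 / (64 * (r / 4 ^ j))) := by
          field_simp
          norm_num
        rw [d8]
        gcongr
      have d9 : ∑ j ∈ range J, ∑ z ∈ X j,
            (((ball n τ).filter (fun y => y + (one n + z) ∈ ball n τ)).card : ℝ) ≤
            J * (4 * T * Real.exp (-v) * 2 ^ n) := by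
        have := Finset.sum_le_card_nsmul _ _ _ d3
        rw [Finset.card_range, nsmul_eq_mul] at this
        exact this
      refine d9.trans ?_
      have hTr : (T : ℝ) = n * (M : ℝ) ^ 2 := by
        rw [hT]; push_cast; ring
      have hv' : 128 * (J : ℝ) * (n : ℝ) * (M : ℝ) ^ 2 ≤ Real.exp v := by
        exact_mod_cast hv
      rw [hTr]
      have hev : Real.exp (-(v : ℝ)) * Real.exp v = 1 := by
        rw [← Real.exp_add]; simp
      have h2n : (0 : ℝ) < 2 ^ n := by positivity
      have hen : 0 < Real.exp (-(v : ℝ)) := Real.exp_pos _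
      calc (J : ℝ) * (4 * (n * (M : ℝ) ^ 2) * Real.exp (-v) * 2 ^ n)
          = (128 * (J : ℝ) * (n : ℝ) * (M : ℝ) ^ 2) * Real.exp (-v) * 2 ^ n / 32 := by ring
        _ ≤ Real.exp v * Real.exp (-v) * 2 ^ n / 32 := by gcongr
        _ = 2 ^ n / 32 := by rw [mul_comm (Real.exp (v : ℝ)), hev, one_mul]
    have h2n : (0 : ℝ) < 2 ^ n := by positivity
    norm_num
    linarith
  · intro g hg hsub
    have hinj : Function.Injective (fun y : V n => y + one n) := add_left_injective _
    have hcard : ((enc g).image (fun y => y + one n)).card = (enc g).card :=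
      Finset.card_image_of_injective _ hinj
    obtain ⟨j, hj, hjle⟩ := exists_scale hr0 hr4 hJpos (n := n) hc0 hg
      (B' := (enc g).image (fun y => y + one n)) (by rw [hcard]; exact hg)
    obtain ⟨h1, h2, h3, h4⟩ := hscale j hj
    have hle : Real.exp (-(1 / (64 * (r / 4 ^ j)))) ≤
        mu (r / 4 ^ j) (enc g + (enc g).image (fun y => y + one n)) := by
      refine le_trans (Real.exp_le_exp.mpr ?_) hjle
      rw [neg_le_neg_iff, ← div_div]
      apply div_le_div_of_nonneg_right _ h1.le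
      rw [div_le_iff₀ hJpos']
      linarith
    obtain ⟨z, hz, hmem⟩ := hX3 j hj g hle
    have hAA := hsub hmem
    rw [Finset.mem_add] at hAA
    obtain ⟨a, ha, a', ha', haa⟩ := hAA
    have ha1 := ha
    have ha'1 := ha'
    rw [hA, Finset.mem_filter] at ha1 ha'1
    have hnot := ha1.2 j hj z hz
    apply hnot
    have : a + (one n + z) = a' := by
      rw [← haa]
      funext i
      simp only [Pi.add_apply]
      have : ∀ x y : ZMod 2, x + (x + y) = y := by decide
      exact this _ _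
    rw [this]
    exact ha'1.1

end Pool.Agent.H290R2.FS
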