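import Pool.Agent.H290R2.FS.Basic

set_option autoImplicit false

/-!
# Summing the one-scale costs over geometric scales
-/

namespace Pool.Agent.H290R2.FS

open Finset
open scoped Pointwise

/-- `max 0 (log s) ≤ √s`. -/
theorem max_log_le_sqrt {s : ℝ} (hs : 0 < s) : max 0 (Real.log s) ≤ Real.sqrt s := by
  refine max_le (Real.sqrt_nonneg _) ?_
  have h1 : Real.log s = 2 * Real.log (Real.sqrt s) := by
    rw [Real.log_sqrt hs.le]; ring
  have h2 : Real.log (Real.sqrt s / 2) ≤ Real.sqrt s / 2 - 1 :=
    Real.log_le_sub_one_of_pos (by positivity)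
  have h3 : Real.log (Real.sqrt s) = Real.log (Real.sqrt s / 2) + Real.log 2 := by
    rw [← Real.log_mul (by positivity) (by norm_num)]
    congr 1
    ring
  have h4 := Real.log_two_lt_d9
  rw [h1, h3]
  linarith

/-- Auxiliary bound for the sum over scales. -/
theorem scale_sum_aux {y : ℝ} (hy : 0 < y) : ∀ (J : ℕ) (r : ℝ), 0 < r →
    ∑ j ∈ range J, (r / 4 ^ j) * max 0 (Real.log (y / (r / 4 ^ j))) ≤ 2 * Real.sqrt (r * y)
  | 0, r, _ => by
      simp only [Finset.range_zero, Finset.sum_empty]
      positivity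
  | J + 1, r, hr => by
      rw [Finset.sum_range_succ']
      have ih := scale_sum_aux hy J (r / 4) (by positivity)
      have h1 : ∀ j : ℕ, r / 4 ^ (j + 1) = r / 4 / 4 ^ j := fun j => by
        rw [pow_succ, div_div, mul_comm]
      simp only [h1]
      have h2 : Real.sqrt (r / 4 * y) = Real.sqrt (r * y) / 2 := by
        have : r / 4 * y = (r * y) / 2 ^ 2 := by ring
        rw [this, Real.sqrt_div' _ (by norm_num), Real.sqrt_sq (by norm_num)]
      rw [h2] at ih
      have h3 : r / 4 ^ 0 * max 0 (Real.log (y / (r / 4 ^ 0))) ≤ Real.sqrt (r * y) := by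
        rw [pow_zero, div_one]
        have h4 := max_log_le_sqrt (div_pos hy hr)
        have h5 : r * Real.sqrt (y / r) = Real.sqrt (r * y) := by
          have : r * y = r ^ 2 * (y / r) := by field_simp
          rw [this, Real.sqrt_mul (by positivity), Real.sqrt_sq hr.le]
        rw [← h5]
        exact mul_le_mul_of_nonneg_left h4 hr.le
      linarith

/-- The sum over scales is bounded linearly in `y`. -/
theorem scale_sum {y : ℝ} (hy : 0 < y) : ∀ (J : ℕ) (r : ℝ), 0 < r →
    ∑ j ∈ range J, (r / 4 ^ j) * max 0 (Real.log (y / (r / 4 ^ j))) ≤ 2 * y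
  | 0, r, _ => by
      simp only [Finset.range_zero, Finset.sum_empty]
      positivity
  | J + 1, r, hr => by
      rcases le_total r y with h | h
      · refine (scale_sum_aux hy (J + 1) r hr).trans ?_
        have : Real.sqrt (r * y) ≤ y := by
          rw [Real.sqrt_le_left hy.le]
          nlinarith
        linarith
      · rw [Finset.sum_range_succ']
        have ih := scale_sum hy J (r / 4) (by positivity)
        have h1 : ∀ j : ℕ, r / 4 ^ (j + 1) = r / 4 / 4 ^ j := fun j => by
          rw [pow_succ, div_div, mul_comm]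
        simp only [h1]
        have h3 : r / 4 ^ 0 * max 0 (Real.log (y / (r / 4 ^ 0))) = 0 := by
          rw [pow_zero, div_one]
          have : Real.log (y / r) ≤ 0 := by
            apply Real.log_nonpos (by positivity)
            rw [div_le_one hr]
            exact h
          rw [max_eq_left this, mul_zero]
        rw [h3]
        linarith

/-- Sum of the costs over scales. -/
theorem psi_sum {y r : ℝ} (hy : 0 ≤ y) (hr : 0 < r) (J : ℕ) :
    ∑ j ∈ range J, (r / 4 ^ j) * psi (r / 4 ^ j) y ≤ 2 * y ^ 2 := by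
  rcases hy.eq_or_lt with h | h
  · rw [← h]
    simp [psi]
  · have h1 := scale_sum h J r hr
    have h2 : ∑ j ∈ range J, (r / 4 ^ j) * psi (r / 4 ^ j) y =
        y * ∑ j ∈ range J, (r / 4 ^ j) * max 0 (Real.log (y / (r / 4 ^ j))) := by
      rw [Finset.mul_sum]
      refine Finset.sum_congr rfl fun j _ => ?_
      unfold psi
      ring
    rw [h2]
    calc _ ≤ y * (2 * y) := mul_le_mul_of_nonneg_left h1 hy
      _ = 2 * y ^ 2 := by ring

/-- A quadratic lower bound for `t log t`. -/
theorem mul_log_ge {t : ℝ} (h0 : 0 ≤ t) (h2 : t ≤ 2) :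
    (t - 1) + (t - 1) ^ 2 / 6 ≤ t * Real.log t := by
  rcases h0.eq_or_lt with h | h
  · rw [← h]
    norm_num
  · set s := Real.sqrt t with hs
    have hs0 : 0 < s := Real.sqrt_pos.mpr h
    have hst : s ^ 2 = t := Real.sq_sqrt h.le
    have h1 : Real.log t = 2 * Real.log s := by
      rw [hs, Real.log_sqrt h.le]; ring
    have h3 : 1 - s⁻¹ ≤ Real.log s := Real.one_sub_inv_le_log_of_pos hs0
    have h4 : t * (2 * (1 - s⁻¹)) ≤ t * Real.log t := by
      rw [h1]
      exact mul_le_mul_of_nonneg_left (by linarith) h.le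
    refine le_trans ?_ h4
    have h5 : t * (2 * (1 - s⁻¹)) = (t - 1) + (s - 1) ^ 2 := by
      rw [← hst]
      field_simp
      ring
    rw [h5]
    have h6 : (t - 1) ^ 2 = (s - 1) ^ 2 * (s + 1) ^ 2 := by
      rw [← hst]; ring
    have h7 : (s + 1) ^ 2 ≤ 6 := by
      have : s ≤ 3 / 2 - 1 / 16 := by
        by_contra hcon
        push Not at hcon
        nlinarith
      nlinarith
    have h8 : (s - 1) ^ 2 * (s + 1) ^ 2 ≤ (s - 1) ^ 2 * 6 :=
      mul_le_mul_of_nonneg_left h7 (sq_nonneg _)
    rw [h6]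
    linarith

/-- Binary relative entropy against the fair coin dominates a square. -/
theorem entropy_ge {p0 p1 : ℝ} (h0 : 0 ≤ p0) (h1 : 0 ≤ p1) (h : p0 + p1 = 1) :
    (p1 - p0) ^ 2 / 6 ≤ p0 * Real.log (2 * p0) + p1 * Real.log (2 * p1) := by
  have a := mul_log_ge (t := 2 * p0) (by linarith) (by linarith)
  have b := mul_log_ge (t := 2 * p1) (by linarith) (by linarith)
  have e0 : 2 * p0 - 1 = p0 - p1 := by linarith
  have e1 : 2 * p1 - 1 = p1 - p0 := by linarith
  rw [e0] at a
  rw [e1] at b
  have : (p0 - p1) ^ 2 = (p1 - p0) ^ 2 := by ring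
  rw [this] at a
  linarith

/-- Codimension-like quantity `log (2^n / |B|)`. -/
noncomputable def defic {n : ℕ} (B : Finset (V n)) : ℝ := Real.log (2 ^ n / B.card)

theorem defic_succ {n : ℕ} {B : Finset (V (n + 1))} (hB : B.Nonempty) :
    defic B = ((sec 0 B).card : ℝ) / B.card * defic (sec 0 B) +
      ((sec 1 B).card : ℝ) / B.card * defic (sec 1 B) +
      (((sec 0 B).card : ℝ) / B.card * Real.log (2 * (((sec 0 B).card : ℝ) / B.card)) +
       ((sec 1 B).card : ℝ) / B.card * Real.log (2 * (((sec 1 B).card : ℝ) / B.card))) := by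
  have hBc : (0 : ℝ) < B.card := by exact_mod_cast hB.card_pos
  have key : ∀ a : ZMod 2, ((sec a B).card : ℝ) / B.card * defic B =
      ((sec a B).card : ℝ) / B.card * defic (sec a B) +
      ((sec a B).card : ℝ) / B.card * Real.log (2 * (((sec a B).card : ℝ) / B.card)) := by
    intro a
    rcases Nat.eq_zero_or_pos (sec a B).card with h | h
    · simp [h]
    · have hc : (0 : ℝ) < (sec a B).card := by exact_mod_cast h
      rw [← mul_add]
      congr 1
      unfold defic
      rw [← Real.log_mul (by positivity) (by positivity)]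
      congr 1
      rw [pow_succ]
      field_simp
  have h1 := card_div_add hB
  calc defic B = (((sec 0 B).card : ℝ) / B.card + ((sec 1 B).card : ℝ) / B.card) * defic B := by
        rw [h1, one_mul]
    _ = _ := by
        rw [add_mul, key 0, key 1]
        ring

theorem Phi_sum {r : ℝ} (hr : 0 < r) (J : ℕ) : ∀ (n : ℕ) (B : Finset (V n)), B.Nonempty →
    ∑ j ∈ range J, (r / 4 ^ j) * Phi (r / 4 ^ j) n B ≤ 48 * defic B
  | 0, B, hB => by
      have h1 : B.card = 1 := by
        apply le_antisymm
        · have := Finset.card_le_univ B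
          simpa using this
        · exact hB.card_pos
      simp [Phi, defic, h1]
  | n + 1, B, hB => by
      have ih := Phi_sum hr J n
      rw [defic_succ hB]
      simp only [Phi]
      have hsplit : ∑ j ∈ range J, (r / 4 ^ j) *
          (psi (r / 4 ^ j) (2 * |((sec 1 B).card : ℝ) / B.card - ((sec 0 B).card : ℝ) / B.card|) +
            ((sec 0 B).card : ℝ) / B.card * Phi (r / 4 ^ j) n (sec 0 B) +
            ((sec 1 B).card : ℝ) / B.card * Phi (r / 4 ^ j) n (sec 1 B)) =
          ∑ j ∈ range J, (r / 4 ^ j) *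
            psi (r / 4 ^ j) (2 * |((sec 1 B).card : ℝ) / B.card - ((sec 0 B).card : ℝ) / B.card|) +
          ((sec 0 B).card : ℝ) / B.card * ∑ j ∈ range J, (r / 4 ^ j) * Phi (r / 4 ^ j) n (sec 0 B) +
          ((sec 1 B).card : ℝ) / B.card *
            ∑ j ∈ range J, (r / 4 ^ j) * Phi (r / 4 ^ j) n (sec 1 B) := by
        rw [Finset.mul_sum, Finset.mul_sum, ← Finset.sum_add_distrib, ← Finset.sum_add_distrib]
        refine Finset.sum_congr rfl fun j _ => ?_
        ring
      rw [hsplit]
      have h1 := psi_sum (y := 2 * |((sec 1 B).card : ℝ) / B.card - ((sec 0 B).card : ℝ) / B.card|)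
        (by positivity) hr J
      have h2 := entropy_ge (card_div_nonneg 0 B) (card_div_nonneg 1 B) (card_div_add hB)
      have h3 : (2 * |((sec 1 B).card : ℝ) / B.card - ((sec 0 B).card : ℝ) / B.card|) ^ 2 =
          4 * (((sec 1 B).card : ℝ) / B.card - ((sec 0 B).card : ℝ) / B.card) ^ 2 := by
        rw [mul_pow, sq_abs]
        norm_num
      rw [h3] at h1
      have key : ∀ a : ZMod 2, ((sec a B).card : ℝ) / B.card *
          ∑ j ∈ range J, (r / 4 ^ j) * Phi (r / 4 ^ j) n (sec a B) ≤
          ((sec a B).card : ℝ) / B.card * (48 * defic (sec a B)) := by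
        intro a
        rcases (card_div_nonneg a B).eq_or_lt with h | h
        · rw [← h, zero_mul, zero_mul]
        · exact mul_le_mul_of_nonneg_left (ih _ (nonempty_of_div_pos h)) h.le
      have k0 := key 0
      have k1 := key 1
      linarith

/-- **Multi-scale lemma.** For dense `B, B'` one of the scales `r / 4 ^ j` is good. -/
theorem exists_scale {r : ℝ} (hr : 0 < r) (hr4 : r ≤ 1 / 4) {J : ℕ} (hJ : 0 < J) {n : ℕ}
    {c : ℝ} (hc : 0 < c) {B B' : Finset (V n)} (hB : c * 2 ^ n ≤ B.card)
    (hB' : c * 2 ^ n ≤ B'.card) :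
    ∃ j ∈ range J, Real.exp (-(96 * Real.log (1 / c) / J / (r / 4 ^ j))) ≤
      mu (r / 4 ^ j) (B + B') := by
  have h2n : (0 : ℝ) < 2 ^ n := by positivity
  have hpos : (0 : ℝ) < B.card := lt_of_lt_of_le (by positivity) hB
  have hpos' : (0 : ℝ) < B'.card := lt_of_lt_of_le (by positivity) hB'
  have hne : B.Nonempty := by
    rw [← Finset.card_pos]; exact_mod_cast hpos
  have hne' : B'.Nonempty := by
    rw [← Finset.card_pos]; exact_mod_cast hpos'
  have hd : ∀ C : Finset (V n), (0 : ℝ) < C.card → c * 2 ^ n ≤ C.card →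
      defic C ≤ Real.log (1 / c) := by
    intro C h0 hC
    unfold defic
    apply Real.log_le_log (by positivity)
    rw [div_le_div_iff₀ h0 hc]
    linarith
  have hJr : (0 : ℝ) < J := by exact_mod_cast hJ
  have hsum : ∑ j ∈ range J, (r / 4 ^ j) * (Phi (r / 4 ^ j) n B + Phi (r / 4 ^ j) n B') ≤
      ∑ _j ∈ range J, 96 * Real.log (1 / c) / J := by
    rw [Finset.sum_const, Finset.card_range, nsmul_eq_mul]
    have e : (J : ℝ) * (96 * Real.log (1 / c) / J) = 96 * Real.log (1 / c) := by
      field_simp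
    rw [e]
    simp only [mul_add, Finset.sum_add_distrib]
    have a := Phi_sum hr J n B hne
    have b := Phi_sum hr J n B' hne'
    have a' := hd B hpos hB
    have b' := hd B' hpos' hB'
    linarith
  obtain ⟨j, hj, hle⟩ := Finset.exists_le_of_sum_le (by simpa using hJ.ne') hsum
  refine ⟨j, hj, ?_⟩
  have hrj : 0 < r / 4 ^ j := by positivity
  have hrj4 : r / 4 ^ j ≤ 1 / 4 := by
    refine le_trans (div_le_self hr.le ?_) hr4
    exact one_le_pow₀ (by norm_num)
  refine le_trans (Real.exp_le_exp.mpr ?_) (transport hrj hrj4 n B B' hne hne')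
  rw [neg_le_neg_iff, le_div_iff₀ hrj]
  linarith

end Pool.Agent.H290R2.FS
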