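import Pool.Agent.H290R2.FS.Scales

set_option autoImplicit false

/-!
# Greedy hitting sets, tail bounds, and the moments of the signed weight
-/

namespace Pool.Agent.H290R2.FS

open Finset
open scoped Pointwise

/-- **Greedy hitting sets.** -/
theorem hitting {ι α : Type*} [DecidableEq ι] [DecidableEq α] (I : Finset ι) (Z : Finset α)
    (w : α → ℝ) (hw : ∀ z ∈ Z, 0 ≤ w z) (hsum : ∑ z ∈ Z, w z ≤ 1) (G : ι → Finset α)
    (hG : ∀ i ∈ I, G i ⊆ Z) {γ : ℝ} (hγ0 : 0 < γ) (hγ1 : γ ≤ 1)
    (hγ : ∀ i ∈ I, γ ≤ ∑ z ∈ G i, w z) :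
    ∀ N : ℕ, ∃ X ⊆ Z, X.card ≤ N ∧
      ((I.filter (fun i => Disjoint X (G i))).card : ℝ) ≤ (1 - γ) ^ N * I.card
  | 0 => ⟨∅, Finset.empty_subset _, le_rfl, by simp⟩
  | N + 1 => by
      obtain ⟨X, hXZ, hXN, hX⟩ := hitting I Z w hw hsum G hG hγ0 hγ1 hγ N
      set R := I.filter (fun i => Disjoint X (G i)) with hR
      rcases R.eq_empty_or_nonempty with hRe | hRne
      · refine ⟨X, hXZ, by omega, ?_⟩
        rw [← hR, hRe]
        simp only [Finset.card_empty, Nat.cast_zero]
        exact mul_nonneg (pow_nonneg (by linarith) _) (Nat.cast_nonneg _)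
      · have hZne : Z.Nonempty := by
          obtain ⟨i, hi⟩ := hRne
          have hiI : i ∈ I := (Finset.mem_filter.mp hi).1
          have h1 := hγ i hiI
          by_contra hZ
          rw [Finset.not_nonempty_iff_eq_empty] at hZ
          have : G i = ∅ := by
            have := hG i hiI
            rw [hZ] at this
            exact Finset.subset_empty.mp this
          rw [this, Finset.sum_empty] at h1
          linarith
        obtain ⟨z, hz, hmax⟩ := Finset.exists_max_image Z
          (fun z => ((R.filter (fun i => z ∈ G i)).card : ℝ)) hZne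
        have hge : γ * R.card ≤ ((R.filter (fun i => z ∈ G i)).card : ℝ) := by
          have h1 : γ * R.card ≤ ∑ i ∈ R, ∑ z ∈ G i, w z := by
            rw [mul_comm, ← nsmul_eq_mul]
            exact Finset.card_nsmul_le_sum _ _ _ fun i hi => hγ i (Finset.mem_filter.mp hi).1
          have h2 : ∑ i ∈ R, ∑ z ∈ G i, w z =
              ∑ z ∈ Z, w z * ((R.filter (fun i => z ∈ G i)).card : ℝ) := by
            have h3 : ∀ i ∈ R, ∑ z ∈ G i, w z = ∑ z ∈ Z, if z ∈ G i then w z else 0 := by
              intro i hi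
              rw [Finset.sum_ite_mem, Finset.inter_eq_right.mpr (hG i (Finset.mem_filter.mp hi).1)]
            rw [Finset.sum_congr rfl h3, Finset.sum_comm]
            refine Finset.sum_congr rfl fun z _ => ?_
            rw [← Finset.sum_filter, Finset.sum_const, nsmul_eq_mul, mul_comm]
          have h4 : ∑ z' ∈ Z, w z' * ((R.filter (fun i => z' ∈ G i)).card : ℝ) ≤
              ∑ z' ∈ Z, w z' * ((R.filter (fun i => z ∈ G i)).card : ℝ) :=
            Finset.sum_le_sum fun z' hz' => mul_le_mul_of_nonneg_left (hmax z' hz') (hw z' hz')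
          rw [← Finset.sum_mul] at h4
          have h5 : (∑ z' ∈ Z, w z') * ((R.filter (fun i => z ∈ G i)).card : ℝ) ≤
              1 * ((R.filter (fun i => z ∈ G i)).card : ℝ) :=
            mul_le_mul_of_nonneg_right hsum (Nat.cast_nonneg _)
          linarith
        refine ⟨insert z X, ?_, ?_, ?_⟩
        · intro a ha
          rcases Finset.mem_insert.mp ha with rfl | h
          · exact hz
          · exact hXZ h
        · exact (Finset.card_insert_le _ _).trans (by omega)
        · have hsub : I.filter (fun i => Disjoint (insert z X) (G i)) ⊆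
              R \ R.filter (fun i => z ∈ G i) := by
            intro i hi
            rw [Finset.mem_filter, Finset.disjoint_insert_left] at hi
            rw [Finset.mem_sdiff, Finset.mem_filter, hR, Finset.mem_filter]
            exact ⟨⟨hi.1, hi.2.2⟩, fun h => hi.2.1 h.2⟩
          have h1 := Finset.card_le_card hsub
          have h2 : (R \ R.filter (fun i => z ∈ G i)).card =
              R.card - (R.filter (fun i => z ∈ G i)).card :=
            Finset.card_sdiff_of_subset (Finset.filter_subset _ _)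
          have h3 : (R.filter (fun i => z ∈ G i)).card ≤ R.card :=
            Finset.card_le_card (Finset.filter_subset _ _)
          have h4 : ((I.filter (fun i => Disjoint (insert z X) (G i))).card : ℝ) ≤
              R.card - ((R.filter (fun i => z ∈ G i)).card : ℝ) := by
            rw [h2] at h1
            have : ((R.card - (R.filter (fun i => z ∈ G i)).card : ℕ) : ℝ) =
                R.card - ((R.filter (fun i => z ∈ G i)).card : ℝ) := Nat.cast_sub h3
            rw [← this]
            exact_mod_cast h1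
          calc _ ≤ (R.card : ℝ) - γ * R.card := by linarith
            _ = (1 - γ) * R.card := by ring
            _ ≤ (1 - γ) * ((1 - γ) ^ N * I.card) :=
                mul_le_mul_of_nonneg_left hX (by linarith)
            _ = (1 - γ) ^ (N + 1) * I.card := by ring

/-- Hamming weight as a product-friendly quantity. -/
def hw {n : ℕ} (z : V n) : ℕ := (univ.filter (fun i => z i ≠ 0)).card

theorem sum_prod (n : ℕ) (f : ZMod 2 → ℝ) : ∑ z : V n, ∏ i, f (z i) = (f 0 + f 1) ^ n := by
  rw [← Fintype.sum_pow f n]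
  congr 1
  exact Fin.sum_univ_two f

theorem sum_wt (ρ : ℝ) (n : ℕ) : ∑ z : V n, wt ρ z = 1 := by
  have h := sum_prod n (fun a => if a = 0 then 1 - ρ else ρ)
  unfold wt
  rw [h]
  simp

theorem pow_hw {n : ℕ} (z : V n) (a : ℝ) : a ^ hw z = ∏ i, (if z i = 0 then 1 else a) := by
  unfold hw
  rw [Finset.prod_ite]
  simp

/-- Exponential tail bound for the weight. -/
theorem tail {ρ : ℝ} (h0 : 0 ≤ ρ) (h1 : ρ ≤ 1) (n : ℕ) (w : ℝ) :
    mu ρ (univ.filter (fun z : V n => w < hw z)) ≤ Real.exp (ρ * n - w * Real.log 2) := by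
  have hstep : ∀ z : V n, z ∈ univ.filter (fun z : V n => w < hw z) →
      wt ρ z ≤ Real.exp (-(w * Real.log 2)) * (wt ρ z * 2 ^ hw z) := by
    intro z hz
    rw [Finset.mem_filter] at hz
    have h2 : (1 : ℝ) ≤ Real.exp (-(w * Real.log 2)) * 2 ^ hw z := by
      have h3 : ((2 : ℝ) ^ hw z) = Real.exp (hw z * Real.log 2) := by
        rw [mul_comm, Real.exp_mul, Real.exp_log (by norm_num), Real.rpow_natCast]
      rw [h3, ← Real.exp_add]
      apply Real.one_le_exp
      have := Real.log_pos (by norm_num : (1 : ℝ) < 2)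
      nlinarith [hz.2]
    have h4 := mul_le_mul_of_nonneg_left h2 (wt_nonneg h0 h1 z)
    linarith
  have hsum : ∑ z : V n, wt ρ z * 2 ^ hw z = (1 + ρ) ^ n := by
    have h := sum_prod n (fun a => if a = 0 then 1 - ρ else 2 * ρ)
    have h2 : ∀ z : V n, wt ρ z * 2 ^ hw z = ∏ i, (if z i = 0 then 1 - ρ else 2 * ρ) := by
      intro z
      rw [pow_hw, wt, ← Finset.prod_mul_distrib]
      refine Finset.prod_congr rfl fun i _ => ?_
      split_ifs <;> ring
    rw [Finset.sum_congr rfl fun z _ => h2 z, h]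
    simp
    ring
  calc mu ρ (univ.filter (fun z : V n => w < hw z))
      ≤ ∑ z ∈ univ.filter (fun z : V n => w < hw z),
          Real.exp (-(w * Real.log 2)) * (wt ρ z * 2 ^ hw z) := Finset.sum_le_sum hstep
    _ ≤ ∑ z : V n, Real.exp (-(w * Real.log 2)) * (wt ρ z * 2 ^ hw z) := by
        refine Finset.sum_le_sum_of_subset_of_nonneg (Finset.filter_subset _ _) fun z _ _ => ?_
        have := wt_nonneg h0 h1 z
        positivity
    _ = Real.exp (-(w * Real.log 2)) * (1 + ρ) ^ n := by rw [← Finset.mul_sum, hsum]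
    _ ≤ Real.exp (-(w * Real.log 2)) * Real.exp (ρ * n) := by
        refine mul_le_mul_of_nonneg_left ?_ (Real.exp_pos _).le
        rw [Real.exp_mul, Real.rpow_natCast]
        refine pow_le_pow_left₀ (by linarith) ?_ n
        have := Real.add_one_le_exp ρ
        linarith
    _ = Real.exp (ρ * n - w * Real.log 2) := by
        rw [← Real.exp_add]
        ring_nf

/-- The sign of a bit. -/
def sg (a : ZMod 2) : ℝ := if a = 0 then 1 else -1

/-- The signed weight `n - 2|y|`. -/
noncomputable def sw {n : ℕ} (y : V n) : ℝ := ∑ i, sg (y i)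

theorem sw_cons {n : ℕ} (a : ZMod 2) (y : V n) :
    sw (Fin.cons a y : V (n + 1)) = sg a + sw y := by
  unfold sw
  rw [Fin.sum_univ_succ]
  simp

theorem sg_zero : sg 0 = 1 := by simp [sg]
theorem sg_one : sg 1 = -1 := by simp [sg]

theorem moment_one : ∀ n : ℕ, ∑ y : V n, sw y = 0
  | 0 => by simp [sw]
  | n + 1 => by
      rw [sum_univ_cons]
      simp only [sw_cons, sg_zero, sg_one, Finset.sum_add_distrib, moment_one n]
      simp

theorem moment_two : ∀ n : ℕ, ∑ y : V n, sw y ^ 2 = n * 2 ^ n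
  | 0 => by simp [sw]
  | n + 1 => by
      rw [sum_univ_cons, ← Finset.sum_add_distrib]
      simp only [sw_cons, sg_zero, sg_one]
      have h : ∀ y : V n, (1 + sw y) ^ 2 + (-1 + sw y) ^ 2 = 2 * sw y ^ 2 + 2 := fun y => by ring
      simp only [h]
      rw [Finset.sum_add_distrib, ← Finset.mul_sum, moment_two n]
      simp
      ring

theorem moment_four : ∀ n : ℕ, ∑ y : V n, sw y ^ 4 = (3 * n ^ 2 - 2 * n) * 2 ^ n
  | 0 => by simp [sw]
  | n + 1 => by
      rw [sum_univ_cons, ← Finset.sum_add_distrib]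
      simp only [sw_cons, sg_zero, sg_one]
      have h : ∀ y : V n, (1 + sw y) ^ 4 + (-1 + sw y) ^ 4 =
          2 * sw y ^ 4 + 12 * sw y ^ 2 + 2 := fun y => by ring
      simp only [h]
      rw [Finset.sum_add_distrib, Finset.sum_add_distrib, ← Finset.mul_sum, ← Finset.mul_sum,
        moment_two n, moment_four n]
      simp
      ring

/-- Paley-Zygmund for the signed weight. -/
theorem pz (n : ℕ) (hn : 0 < n) :
    (3 / 16 : ℝ) * 2 ^ n ≤ (univ.filter (fun y : V n => (n : ℝ) / 4 ≤ sw y ^ 2)).card := by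
  set P := univ.filter (fun y : V n => (n : ℝ) / 4 ≤ sw y ^ 2) with hP
  have hn' : (0 : ℝ) < n := by exact_mod_cast hn
  have h1 : ∑ y : V n, sw y ^ 2 ≤ ∑ y ∈ P, sw y ^ 2 + (n : ℝ) / 4 * 2 ^ n := by
    rw [← Finset.sum_filter_add_sum_filter_not univ (fun y : V n => (n : ℝ) / 4 ≤ sw y ^ 2)]
    rw [← hP]
    gcongr
    calc ∑ y ∈ univ.filter (fun y : V n => ¬ (n : ℝ) / 4 ≤ sw y ^ 2), sw y ^ 2
        ≤ ∑ y ∈ univ.filter (fun y : V n => ¬ (n : ℝ) / 4 ≤ sw y ^ 2), (n : ℝ) / 4 := by
          refine Finset.sum_le_sum fun y hy => ?_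
          rw [Finset.mem_filter] at hy
          linarith [hy.2]
      _ ≤ ∑ y : V n, (n : ℝ) / 4 :=
          Finset.sum_le_sum_of_subset_of_nonneg (Finset.filter_subset _ _)
            fun _ _ _ => by positivity
      _ = (n : ℝ) / 4 * 2 ^ n := by
          simp
          ring
  rw [moment_two] at h1
  have h2 : (∑ y ∈ P, sw y ^ 2) ^ 2 ≤ P.card * ∑ y ∈ P, (sw y ^ 2) ^ 2 :=
    sq_sum_le_card_mul_sum_sq
  have h3 : ∑ y ∈ P, (sw y ^ 2) ^ 2 ≤ 3 * n ^ 2 * 2 ^ n := by
    calc ∑ y ∈ P, (sw y ^ 2) ^ 2 ≤ ∑ y : V n, (sw y ^ 2) ^ 2 :=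
          Finset.sum_le_sum_of_subset_of_nonneg (Finset.filter_subset _ _)
            fun _ _ _ => by positivity
      _ = ∑ y : V n, sw y ^ 4 := Finset.sum_congr rfl fun y _ => by ring
      _ = (3 * n ^ 2 - 2 * n) * 2 ^ n := moment_four n
      _ ≤ 3 * n ^ 2 * 2 ^ n := by
          have : (0 : ℝ) < 2 ^ n := by positivity
          nlinarith
  have h4 : (3 / 4 * n * 2 ^ n : ℝ) ≤ ∑ y ∈ P, sw y ^ 2 := by linarith
  have h5 : (3 / 4 * n * 2 ^ n : ℝ) ^ 2 ≤ (∑ y ∈ P, sw y ^ 2) ^ 2 :=
    pow_le_pow_left₀ (by positivity) h4 2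
  have h6 : (P.card : ℝ) * ∑ y ∈ P, (sw y ^ 2) ^ 2 ≤ P.card * (3 * n ^ 2 * 2 ^ n) :=
    mul_le_mul_of_nonneg_left h3 (Nat.cast_nonneg _)
  have h7 : (3 / 4 * n * 2 ^ n : ℝ) ^ 2 ≤ P.card * (3 * n ^ 2 * 2 ^ n) := by linarith
  have h8 : (3 * (n : ℝ) ^ 2 * 2 ^ n) * ((3 / 16 : ℝ) * (2 : ℝ) ^ n) ≤
      (3 * (n : ℝ) ^ 2 * 2 ^ n) * (P.card : ℝ) := by
    have e1 : (3 * (n : ℝ) ^ 2 * 2 ^ n) * ((3 / 16 : ℝ) * (2 : ℝ) ^ n) =
        (3 / 4 * n * 2 ^ n : ℝ) ^ 2 := by ring
    have e2 : (3 * (n : ℝ) ^ 2 * 2 ^ n) * (P.card : ℝ) = P.card * (3 * n ^ 2 * 2 ^ n) := by ring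
    rw [e1, e2]
    exact h7
  exact le_of_mul_le_mul_left h8 (by positivity)

/-- The all-ones vector. -/
def one (n : ℕ) : V n := fun _ => 1

theorem sg_add_one (a : ZMod 2) : sg (a + 1) = -sg a := by
  fin_cases a
  · change sg (0 + 1) = -sg 0
    rw [zero_add, sg_zero, sg_one]
  · change sg (1 + 1) = -sg 1
    rw [show (1 : ZMod 2) + 1 = 0 by decide, sg_zero, sg_one]
    norm_num

theorem sw_add_one {n : ℕ} (y : V n) : sw (y + one n) = -sw y := by
  unfold sw
  rw [← Finset.sum_neg_distrib]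
  exact Finset.sum_congr rfl fun i _ => by simp [one, sg_add_one]

/-- The set of vectors whose signed weight is at least `τ`. -/
noncomputable def ball (n : ℕ) (τ : ℝ) : Finset (V n) := univ.filter (fun y => τ ≤ sw y)

theorem ball_card (n : ℕ) (hn : 0 < n) :
    (3 / 32 : ℝ) * 2 ^ n ≤ (ball n (Real.sqrt n / 2)).card := by
  have h := pz n hn
  have hn' : (0 : ℝ) < n := by exact_mod_cast hn
  have hsub : univ.filter (fun y : V n => (n : ℝ) / 4 ≤ sw y ^ 2) ⊆
      ball n (Real.sqrt n / 2) ∪ (ball n (Real.sqrt n / 2)).image (fun y => y + one n) := by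
    intro y hy
    rw [Finset.mem_filter] at hy
    have h1 : (Real.sqrt n / 2) ^ 2 ≤ sw y ^ 2 := by
      rw [div_pow, Real.sq_sqrt hn'.le]
      linarith [hy.2]
    have h2 : Real.sqrt n / 2 ≤ |sw y| := by
      rw [← abs_of_nonneg (by positivity : 0 ≤ Real.sqrt (n : ℝ) / 2)]
      exact sq_le_sq.mp h1
    rw [Finset.mem_union]
    rcases le_total 0 (sw y) with h3 | h3
    · left
      rw [abs_of_nonneg h3] at h2
      simp only [ball, Finset.mem_filter, Finset.mem_univ, true_and]
      exact h2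
    · right
      rw [abs_of_nonpos h3] at h2
      rw [Finset.mem_image]
      refine ⟨y + one n, ?_, ?_⟩
      · simp only [ball, Finset.mem_filter, Finset.mem_univ, true_and]
        rw [sw_add_one]
        exact h2
      · funext i
        simp only [Pi.add_apply, one, add_assoc]
        rw [show (1 : ZMod 2) + 1 = 0 by decide, add_zero]
  have h1 := Finset.card_le_card hsub
  have h2 := Finset.card_union_le (ball n (Real.sqrt n / 2))
    ((ball n (Real.sqrt n / 2)).image (fun y => y + one n))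
  have h3 : ((ball n (Real.sqrt n / 2)).image (fun y => y + one n)).card ≤
      (ball n (Real.sqrt n / 2)).card := Finset.card_image_le
  have h4 : (univ.filter (fun y : V n => (n : ℝ) / 4 ≤ sw y ^ 2)).card ≤
      2 * (ball n (Real.sqrt n / 2)).card := by omega
  have h5 : ((univ.filter (fun y : V n => (n : ℝ) / 4 ≤ sw y ^ 2)).card : ℝ) ≤
      2 * (ball n (Real.sqrt n / 2)).card := by exact_mod_cast h4
  linarith

/-- If `y` and `y + (1 + z)` both lie in the ball then `z` captures a large part of `y`. -/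
theorem deletion {n : ℕ} {τ w : ℝ} (hτ : 0 ≤ τ) (hw0 : 0 < w) (z : V n) (hz : (hw z : ℝ) ≤ w) :
    (((ball n τ).filter (fun y => y + (one n + z) ∈ ball n τ)).card : ℝ) ≤
      2 ^ n * Real.exp (-(τ ^ 2 / (2 * w))) := by
  set lam : ℝ := τ / w with hlam
  have hlam0 : 0 ≤ lam := by positivity
  have h1 : ∀ y ∈ (ball n τ).filter (fun y => y + (one n + z) ∈ ball n τ),
      (1 : ℝ) ≤ Real.exp (-(lam * τ)) * ∏ i, Real.exp (if z i = 0 then 0 else lam * sg (y i)) := by
    intro y hy
    rw [Finset.mem_filter] at hy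
    simp only [ball, Finset.mem_filter, Finset.mem_univ, true_and] at hy
    rw [← Real.exp_sum, ← Real.exp_add]
    apply Real.one_le_exp
    have h2 : sw y + sw (y + (one n + z)) = 2 * ∑ i, (if z i = 0 then 0 else sg (y i)) := by
      unfold sw
      rw [← Finset.sum_add_distrib, Finset.mul_sum]
      refine Finset.sum_congr rfl fun i _ => ?_
      by_cases hzi : z i = 0
      · rw [if_pos hzi]
        simp only [Pi.add_apply, one, hzi, add_zero]
        rw [sg_add_one]
        ring
      · have hzi1 : z i = 1 := by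
          have : ∀ a : ZMod 2, a ≠ 0 → a = 1 := by decide
          exact this _ hzi
        rw [if_neg hzi]
        simp only [Pi.add_apply, one, hzi1]
        rw [show (1 : ZMod 2) + 1 = 0 by decide, add_zero]
        ring
    have h3 : τ ≤ ∑ i, (if z i = 0 then 0 else sg (y i)) := by linarith [hy.1, hy.2]
    have h4 : ∑ i, (if z i = 0 then 0 else lam * sg (y i)) =
        lam * ∑ i, (if z i = 0 then 0 else sg (y i)) := by
      rw [Finset.mul_sum]
      refine Finset.sum_congr rfl fun i _ => ?_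
      split_ifs <;> ring
    rw [h4]
    have := mul_le_mul_of_nonneg_left h3 hlam0
    linarith
  have h2 : (((ball n τ).filter (fun y => y + (one n + z) ∈ ball n τ)).card : ℝ) ≤
      ∑ y : V n, Real.exp (-(lam * τ)) *
        ∏ i, Real.exp (if z i = 0 then 0 else lam * sg (y i)) := by
    calc (((ball n τ).filter (fun y => y + (one n + z) ∈ ball n τ)).card : ℝ)
        = ∑ y ∈ (ball n τ).filter (fun y => y + (one n + z) ∈ ball n τ), (1 : ℝ) := by simp
      _ ≤ ∑ y ∈ (ball n τ).filter (fun y => y + (one n + z) ∈ ball n τ),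
          Real.exp (-(lam * τ)) * ∏ i, Real.exp (if z i = 0 then 0 else lam * sg (y i)) :=
          Finset.sum_le_sum h1
      _ ≤ _ := by
          refine Finset.sum_le_sum_of_subset_of_nonneg (Finset.subset_univ _) fun _ _ _ => ?_
          positivity
  refine h2.trans ?_
  rw [← Finset.mul_sum]
  have h3 : ∑ y : V n, ∏ i, Real.exp (if z i = 0 then 0 else lam * sg (y i)) =
      ∏ i, (if z i = 0 then (2 : ℝ) else 2 * Real.cosh lam) := by
    have h4 := Finset.prod_univ_sum (fun _ : Fin n => (univ : Finset (ZMod 2)))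
      (fun i a => Real.exp (if z i = 0 then 0 else lam * sg a))
    rw [Fintype.piFinset_univ] at h4
    rw [← h4]
    refine Finset.prod_congr rfl fun i _ => ?_
    have h5 : ∀ g : ZMod 2 → ℝ, ∑ a, g a = g 0 + g 1 := fun g => Fin.sum_univ_two g
    rw [h5]
    by_cases hzi : z i = 0
    · rw [if_pos hzi, if_pos hzi, if_pos hzi]
      norm_num
    · rw [if_neg hzi, if_neg hzi, if_neg hzi, sg_zero, sg_one, Real.cosh_eq]
      rw [mul_one, mul_neg, mul_one]
      ring
  rw [h3]
  have h6 : ∏ i, (if z i = 0 then (2 : ℝ) else 2 * Real.cosh lam) =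
      2 ^ n * Real.cosh lam ^ hw z := by
    rw [pow_hw]
    have : (2 : ℝ) ^ n = ∏ _i : Fin n, (2 : ℝ) := by simp
    rw [this, ← Finset.prod_mul_distrib]
    refine Finset.prod_congr rfl fun i _ => ?_
    split_ifs <;> ring
  rw [h6]
  have h7 : Real.cosh lam ^ hw z ≤ Real.exp (lam ^ 2 / 2 * w) := by
    calc Real.cosh lam ^ hw z ≤ Real.exp (lam ^ 2 / 2) ^ hw z := by
          refine pow_le_pow_left₀ (Real.cosh_pos _).le (Real.cosh_le_exp_half_sq lam) _
      _ = Real.exp (lam ^ 2 / 2 * hw z) := by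
          rw [Real.exp_mul, Real.rpow_natCast]
      _ ≤ Real.exp (lam ^ 2 / 2 * w) := by
          apply Real.exp_le_exp.mpr
          exact mul_le_mul_of_nonneg_left hz (by positivity)
  calc Real.exp (-(lam * τ)) * (2 ^ n * Real.cosh lam ^ hw z)
      ≤ Real.exp (-(lam * τ)) * (2 ^ n * Real.exp (lam ^ 2 / 2 * w)) := by gcongr
    _ = 2 ^ n * (Real.exp (-(lam * τ)) * Real.exp (lam ^ 2 / 2 * w)) := by ring
    _ = 2 ^ n * Real.exp (-(τ ^ 2 / (2 * w))) := by
        rw [← Real.exp_add, hlam]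
        congr 2
        field_simp
        ring

end Pool.Agent.H290R2.FS
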